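import Pool.Agent.H69.TRI.StmtsP

/-! Module PSI1 of block A of project TRI (helper95): elementary facts on the correctors. -/

open MeasureTheory Set Filter Topology InnerProductSpace Metric
open scoped Real ComplexConjugate ContDiff Laplacian

namespace Pool.TRI.A

theorem psi1 : Psi1Stmt := by
  refine ⟨fun k => ?_, fun k x _ hk => ?_, fun x => ?_, fun x => ?_⟩
  · unfold psi psi0
    fun_prop
  · have h : x (0 + k) * x (1 + k) * x (2 + k) = 0 := by
      obtain ⟨l, hl⟩ := hk
      fin_cases k <;> fin_cases l <;> simp_all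
    show psi0 (fun i => x (i + k)) = 0
    unfold psi0
    rw [h, zero_mul]
  · unfold psi psi0
    simp only [zero_add, Fin.isValue, show (0 : Fin 3) + 1 = 1 from rfl, show (1 : Fin 3) + 0 = 1 from rfl,
      show (2 : Fin 3) + 0 = 2 from rfl, show (1 : Fin 3) + 1 = 2 from rfl, show (2 : Fin 3) + 1 = 0 from rfl,
      show (0 : Fin 3) + 2 = 2 from rfl, show (1 : Fin 3) + 2 = 0 from rfl, show (2 : Fin 3) + 2 = 1 from rfl]
    ring
  · unfold psi0
    simp only [Matrix.cons_val_zero, Matrix.cons_val_one, Matrix.cons_val]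
    ring

end Pool.TRI.A
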