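import Pool.Agent.H69.TRI.StmtsP

/-! Module PSI3 of block A of project TRI (helper95): the integral of the corrector against the sine. -/

open MeasureTheory Set Filter Topology InnerProductSpace Metric
open scoped Real ComplexConjugate ContDiff Laplacian

namespace Pool.TRI.A

private noncomputable def p3c1 (s : ℝ) : ℝ := (-9 / 8) * s ^ 1 + (-1287 / 20) * s ^ 2 + (9909 / 40) * s ^ 3 + (-4617 / 20) * s ^ 4 + (-81 / 5) * s ^ 5 + (324 / 5) * s ^ 6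
private noncomputable def p3c2 (s : ℝ) : ℝ := (-105 / 4) * s ^ 1 + (5841 / 20) * s ^ 2 + (-6777 / 10) * s ^ 3 + (2538 / 5) * s ^ 4 + (-486 / 5) * s ^ 5
private noncomputable def p3c3 (s : ℝ) : ℝ := (1053 / 10) * s ^ 1 + (-1053 / 2) * s ^ 2 + (3483 / 5) * s ^ 3 + (-1377 / 5) * s ^ 4
private noncomputable def p3c4 (s : ℝ) : ℝ := (-4293 / 25) * s ^ 1 + (10692 / 25) * s ^ 2 + (-5994 / 25) * s ^ 3
private noncomputable def p3c5 (s : ℝ) : ℝ := (648 / 5) * s ^ 1 + (-648 / 5) * s ^ 2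
private noncomputable def p3c6 (s : ℝ) : ℝ := (-1296 / 35) * s ^ 1

private noncomputable def p3Q (s t : ℝ) : ℝ :=
  p3c1 s * t ^ 2 + p3c2 s * t ^ 3 + p3c3 s * t ^ 4 + p3c4 s * t ^ 5 + p3c5 s * t ^ 6 + p3c6 s * t ^ 7

private theorem p3Q_deriv (s t : ℝ) : HasDerivAt (fun t => p3Q s t) (psi0 ![s, t, 1 - s - t]) t := by
  have h : HasDerivAt (fun t => p3Q s t) (p3c1 s * (((2 : ℕ) : ℝ) * t ^ (2 - 1)) + p3c2 s * (((3 : ℕ) : ℝ) * t ^ (3 - 1)) + p3c3 s * (((4 : ℕ) : ℝ) * t ^ (4 - 1)) + p3c4 s * (((5 : ℕ) : ℝ) * t ^ (5 - 1)) + p3c5 s * (((6 : ℕ) : ℝ) * t ^ (6 - 1)) + p3c6 s * (((7 : ℕ) : ℝ) * t ^ (7 - 1))) t := by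
    unfold p3Q
    exact (((((((hasDerivAt_pow 2 t).const_mul (p3c1 s)).fun_add ((hasDerivAt_pow 3 t).const_mul (p3c2 s))).fun_add ((hasDerivAt_pow 4 t).const_mul (p3c3 s))).fun_add ((hasDerivAt_pow 5 t).const_mul (p3c4 s))).fun_add ((hasDerivAt_pow 6 t).const_mul (p3c5 s))).fun_add ((hasDerivAt_pow 7 t).const_mul (p3c6 s)))
  refine h.congr_deriv ?_
  simp only [p3c1, p3c2, p3c3, p3c4, p3c5, p3c6, psi0, Matrix.cons_val_zero, Matrix.cons_val_one,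
    Matrix.cons_val]
  norm_num
  ring

private noncomputable def p3P0 (s : ℝ) : ℝ := (-1713 / 1400) * s ^ 1 + (-18 / 25) * s ^ 2 + (1287 / 50) * s ^ 3 + (-147 / 4) * s ^ 4 + (-2097 / 40) * s ^ 5 + (15687 / 100) * s ^ 6 + (-3132 / 25) * s ^ 7 + (5913 / 175) * s ^ 8
private noncomputable def p3P1 (s : ℝ) : ℝ := (-1713 / 1400) * s ^ 0 + (-36 / 25) * s ^ 1 + (3861 / 50) * s ^ 2 + (-147) * s ^ 3 + (-2097 / 8) * s ^ 4 + (47061 / 50) * s ^ 5 + (-21924 / 25) * s ^ 6 + (47304 / 175) * s ^ 7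
private noncomputable def p3P2 (s : ℝ) : ℝ := (-36 / 25) * s ^ 0 + (3861 / 25) * s ^ 1 + (-441) * s ^ 2 + (-2097 / 2) * s ^ 3 + (47061 / 10) * s ^ 4 + (-131544 / 25) * s ^ 5 + (47304 / 25) * s ^ 6
private noncomputable def p3P3 (s : ℝ) : ℝ := (3861 / 25) * s ^ 0 + (-882) * s ^ 1 + (-6291 / 2) * s ^ 2 + (94122 / 5) * s ^ 3 + (-131544 / 5) * s ^ 4 + (283824 / 25) * s ^ 5
private noncomputable def p3P4 (s : ℝ) : ℝ := (-882) * s ^ 0 + (-6291) * s ^ 1 + (282366 / 5) * s ^ 2 + (-526176 / 5) * s ^ 3 + (283824 / 5) * s ^ 4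
private noncomputable def p3P5 (s : ℝ) : ℝ := (-6291) * s ^ 0 + (564732 / 5) * s ^ 1 + (-1578528 / 5) * s ^ 2 + (1135296 / 5) * s ^ 3
private noncomputable def p3P6 (s : ℝ) : ℝ := (564732 / 5) * s ^ 0 + (-3157056 / 5) * s ^ 1 + (3405888 / 5) * s ^ 2
private noncomputable def p3P7 (s : ℝ) : ℝ := (-3157056 / 5) * s ^ 0 + (6811776 / 5) * s ^ 1
private noncomputable def p3P8 (s : ℝ) : ℝ := (6811776 / 5) * s ^ 0

private theorem p3P0_deriv (s : ℝ) : HasDerivAt p3P0 (p3P1 s) s := by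
  have h : HasDerivAt (fun s => (-1713 / 1400) * s ^ 1 + (-18 / 25) * s ^ 2 + (1287 / 50) * s ^ 3 + (-147 / 4) * s ^ 4 + (-2097 / 40) * s ^ 5 + (15687 / 100) * s ^ 6 + (-3132 / 25) * s ^ 7 + (5913 / 175) * s ^ 8) ((-1713 / 1400) * (((1 : ℕ) : ℝ) * s ^ (1 - 1)) + (-18 / 25) * (((2 : ℕ) : ℝ) * s ^ (2 - 1)) + (1287 / 50) * (((3 : ℕ) : ℝ) * s ^ (3 - 1)) + (-147 / 4) * (((4 : ℕ) : ℝ) * s ^ (4 - 1)) + (-2097 / 40) * (((5 : ℕ) : ℝ) * s ^ (5 - 1)) + (15687 / 100) * (((6 : ℕ) : ℝ) * s ^ (6 - 1)) + (-3132 / 25) * (((7 : ℕ) : ℝ) * s ^ (7 - 1)) + (5913 / 175) * (((8 : ℕ) : ℝ) * s ^ (8 - 1))) s := by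
    exact (((((((((hasDerivAt_pow 1 s).const_mul (-1713 / 1400)).fun_add ((hasDerivAt_pow 2 s).const_mul (-18 / 25))).fun_add ((hasDerivAt_pow 3 s).const_mul (1287 / 50))).fun_add ((hasDerivAt_pow 4 s).const_mul (-147 / 4))).fun_add ((hasDerivAt_pow 5 s).const_mul (-2097 / 40))).fun_add ((hasDerivAt_pow 6 s).const_mul (15687 / 100))).fun_add ((hasDerivAt_pow 7 s).const_mul (-3132 / 25))).fun_add ((hasDerivAt_pow 8 s).const_mul (5913 / 175)))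
  refine HasDerivAt.congr_deriv (f := p3P0) h ?_
  simp only [p3P1]
  norm_num
  try ring

private theorem p3P1_deriv (s : ℝ) : HasDerivAt p3P1 (p3P2 s) s := by
  have h : HasDerivAt (fun s => (-1713 / 1400) * s ^ 0 + (-36 / 25) * s ^ 1 + (3861 / 50) * s ^ 2 + (-147) * s ^ 3 + (-2097 / 8) * s ^ 4 + (47061 / 50) * s ^ 5 + (-21924 / 25) * s ^ 6 + (47304 / 175) * s ^ 7) ((-1713 / 1400) * (((0 : ℕ) : ℝ) * s ^ (0 - 1)) + (-36 / 25) * (((1 : ℕ) : ℝ) * s ^ (1 - 1)) + (3861 / 50) * (((2 : ℕ) : ℝ) * s ^ (2 - 1)) + (-147) * (((3 : ℕ) : ℝ) * s ^ (3 - 1)) + (-2097 / 8) * (((4 : ℕ) : ℝ) * s ^ (4 - 1)) + (47061 / 50) * (((5 : ℕ) : ℝ) * s ^ (5 - 1)) + (-21924 / 25) * (((6 : ℕ) : ℝ) * s ^ (6 - 1)) + (47304 / 175) * (((7 : ℕ) : ℝ) * s ^ (7 - 1))) s := by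
    exact (((((((((hasDerivAt_pow 0 s).const_mul (-1713 / 1400)).fun_add ((hasDerivAt_pow 1 s).const_mul (-36 / 25))).fun_add ((hasDerivAt_pow 2 s).const_mul (3861 / 50))).fun_add ((hasDerivAt_pow 3 s).const_mul (-147))).fun_add ((hasDerivAt_pow 4 s).const_mul (-2097 / 8))).fun_add ((hasDerivAt_pow 5 s).const_mul (47061 / 50))).fun_add ((hasDerivAt_pow 6 s).const_mul (-21924 / 25))).fun_add ((hasDerivAt_pow 7 s).const_mul (47304 / 175)))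
  refine HasDerivAt.congr_deriv (f := p3P1) h ?_
  simp only [p3P2]
  norm_num
  try ring

private theorem p3P2_deriv (s : ℝ) : HasDerivAt p3P2 (p3P3 s) s := by
  have h : HasDerivAt (fun s => (-36 / 25) * s ^ 0 + (3861 / 25) * s ^ 1 + (-441) * s ^ 2 + (-2097 / 2) * s ^ 3 + (47061 / 10) * s ^ 4 + (-131544 / 25) * s ^ 5 + (47304 / 25) * s ^ 6) ((-36 / 25) * (((0 : ℕ) : ℝ) * s ^ (0 - 1)) + (3861 / 25) * (((1 : ℕ) : ℝ) * s ^ (1 - 1)) + (-441) * (((2 : ℕ) : ℝ) * s ^ (2 - 1)) + (-2097 / 2) * (((3 : ℕ) : ℝ) * s ^ (3 - 1)) + (47061 / 10) * (((4 : ℕ) : ℝ) * s ^ (4 - 1)) + (-131544 / 25) * (((5 : ℕ) : ℝ) * s ^ (5 - 1)) + (47304 / 25) * (((6 : ℕ) : ℝ) * s ^ (6 - 1))) s := by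
    exact ((((((((hasDerivAt_pow 0 s).const_mul (-36 / 25)).fun_add ((hasDerivAt_pow 1 s).const_mul (3861 / 25))).fun_add ((hasDerivAt_pow 2 s).const_mul (-441))).fun_add ((hasDerivAt_pow 3 s).const_mul (-2097 / 2))).fun_add ((hasDerivAt_pow 4 s).const_mul (47061 / 10))).fun_add ((hasDerivAt_pow 5 s).const_mul (-131544 / 25))).fun_add ((hasDerivAt_pow 6 s).const_mul (47304 / 25)))
  refine HasDerivAt.congr_deriv (f := p3P2) h ?_
  simp only [p3P3]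
  norm_num
  try ring

private theorem p3P3_deriv (s : ℝ) : HasDerivAt p3P3 (p3P4 s) s := by
  have h : HasDerivAt (fun s => (3861 / 25) * s ^ 0 + (-882) * s ^ 1 + (-6291 / 2) * s ^ 2 + (94122 / 5) * s ^ 3 + (-131544 / 5) * s ^ 4 + (283824 / 25) * s ^ 5) ((3861 / 25) * (((0 : ℕ) : ℝ) * s ^ (0 - 1)) + (-882) * (((1 : ℕ) : ℝ) * s ^ (1 - 1)) + (-6291 / 2) * (((2 : ℕ) : ℝ) * s ^ (2 - 1)) + (94122 / 5) * (((3 : ℕ) : ℝ) * s ^ (3 - 1)) + (-131544 / 5) * (((4 : ℕ) : ℝ) * s ^ (4 - 1)) + (283824 / 25) * (((5 : ℕ) : ℝ) * s ^ (5 - 1))) s := by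
    exact (((((((hasDerivAt_pow 0 s).const_mul (3861 / 25)).fun_add ((hasDerivAt_pow 1 s).const_mul (-882))).fun_add ((hasDerivAt_pow 2 s).const_mul (-6291 / 2))).fun_add ((hasDerivAt_pow 3 s).const_mul (94122 / 5))).fun_add ((hasDerivAt_pow 4 s).const_mul (-131544 / 5))).fun_add ((hasDerivAt_pow 5 s).const_mul (283824 / 25)))
  refine HasDerivAt.congr_deriv (f := p3P3) h ?_
  simp only [p3P4]
  norm_num
  try ring

private theorem p3P4_deriv (s : ℝ) : HasDerivAt p3P4 (p3P5 s) s := by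
  have h : HasDerivAt (fun s => (-882) * s ^ 0 + (-6291) * s ^ 1 + (282366 / 5) * s ^ 2 + (-526176 / 5) * s ^ 3 + (283824 / 5) * s ^ 4) ((-882) * (((0 : ℕ) : ℝ) * s ^ (0 - 1)) + (-6291) * (((1 : ℕ) : ℝ) * s ^ (1 - 1)) + (282366 / 5) * (((2 : ℕ) : ℝ) * s ^ (2 - 1)) + (-526176 / 5) * (((3 : ℕ) : ℝ) * s ^ (3 - 1)) + (283824 / 5) * (((4 : ℕ) : ℝ) * s ^ (4 - 1))) s := by
    exact ((((((hasDerivAt_pow 0 s).const_mul (-882)).fun_add ((hasDerivAt_pow 1 s).const_mul (-6291))).fun_add ((hasDerivAt_pow 2 s).const_mul (282366 / 5))).fun_add ((hasDerivAt_pow 3 s).const_mul (-526176 / 5))).fun_add ((hasDerivAt_pow 4 s).const_mul (283824 / 5)))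
  refine HasDerivAt.congr_deriv (f := p3P4) h ?_
  simp only [p3P5]
  norm_num
  try ring

private theorem p3P5_deriv (s : ℝ) : HasDerivAt p3P5 (p3P6 s) s := by
  have h : HasDerivAt (fun s => (-6291) * s ^ 0 + (564732 / 5) * s ^ 1 + (-1578528 / 5) * s ^ 2 + (1135296 / 5) * s ^ 3) ((-6291) * (((0 : ℕ) : ℝ) * s ^ (0 - 1)) + (564732 / 5) * (((1 : ℕ) : ℝ) * s ^ (1 - 1)) + (-1578528 / 5) * (((2 : ℕ) : ℝ) * s ^ (2 - 1)) + (1135296 / 5) * (((3 : ℕ) : ℝ) * s ^ (3 - 1))) s := by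
    exact (((((hasDerivAt_pow 0 s).const_mul (-6291)).fun_add ((hasDerivAt_pow 1 s).const_mul (564732 / 5))).fun_add ((hasDerivAt_pow 2 s).const_mul (-1578528 / 5))).fun_add ((hasDerivAt_pow 3 s).const_mul (1135296 / 5)))
  refine HasDerivAt.congr_deriv (f := p3P5) h ?_
  simp only [p3P6]
  norm_num
  try ring

private theorem p3P6_deriv (s : ℝ) : HasDerivAt p3P6 (p3P7 s) s := by
  have h : HasDerivAt (fun s => (564732 / 5) * s ^ 0 + (-3157056 / 5) * s ^ 1 + (3405888 / 5) * s ^ 2) ((564732 / 5) * (((0 : ℕ) : ℝ) * s ^ (0 - 1)) + (-3157056 / 5) * (((1 : ℕ) : ℝ) * s ^ (1 - 1)) + (3405888 / 5) * (((2 : ℕ) : ℝ) * s ^ (2 - 1))) s := by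
    exact ((((hasDerivAt_pow 0 s).const_mul (564732 / 5)).fun_add ((hasDerivAt_pow 1 s).const_mul (-3157056 / 5))).fun_add ((hasDerivAt_pow 2 s).const_mul (3405888 / 5)))
  refine HasDerivAt.congr_deriv (f := p3P6) h ?_
  simp only [p3P7]
  norm_num
  try ring

private theorem p3P7_deriv (s : ℝ) : HasDerivAt p3P7 (p3P8 s) s := by
  have h : HasDerivAt (fun s => (-3157056 / 5) * s ^ 0 + (6811776 / 5) * s ^ 1) ((-3157056 / 5) * (((0 : ℕ) : ℝ) * s ^ (0 - 1)) + (6811776 / 5) * (((1 : ℕ) : ℝ) * s ^ (1 - 1))) s := by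
    exact (((hasDerivAt_pow 0 s).const_mul (-3157056 / 5)).fun_add ((hasDerivAt_pow 1 s).const_mul (6811776 / 5)))
  refine HasDerivAt.congr_deriv (f := p3P7) h ?_
  simp only [p3P8]
  norm_num
  try ring

private theorem p3P8_deriv (s : ℝ) : HasDerivAt p3P8 0 s := by
  have h : HasDerivAt (fun s => (6811776 / 5) * s ^ 0) ((6811776 / 5) * (((0 : ℕ) : ℝ) * s ^ (0 - 1))) s := by
    exact ((hasDerivAt_pow 0 s).const_mul (6811776 / 5))
  refine HasDerivAt.congr_deriv (f := p3P8) h ?_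
  skip
  norm_num
  try ring

private theorem p3_inner (s : ℝ) : ∫ t in (0 : ℝ)..(1 - s), psi0 ![s, t, 1 - s - t] = p3P0 s := by
  have hc : Continuous fun t : ℝ => psi0 ![s, t, 1 - s - t] := by
    unfold psi0
    simp only [Matrix.cons_val_zero, Matrix.cons_val_one, Matrix.cons_val]
    fun_prop
  rw [intervalIntegral.integral_eq_sub_of_hasDerivAt (fun t _ => p3Q_deriv s t)
    (hc.intervalIntegrable _ _)]
  simp only [p3Q, p3c1, p3c2, p3c3, p3c4, p3c5, p3c6, p3P0]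
  ring

private noncomputable def p3C (a s : ℝ) : ℝ :=
  -(p3P0 s / a) + p3P2 s / a ^ 3 - p3P4 s / a ^ 5 + p3P6 s / a ^ 7 - p3P8 s / a ^ 9

private noncomputable def p3S (a s : ℝ) : ℝ :=
  p3P1 s / a ^ 2 - p3P3 s / a ^ 4 + p3P5 s / a ^ 6 - p3P7 s / a ^ 8

private theorem p3G_deriv {a : ℝ} (ha : a ≠ 0) (s : ℝ) :
    HasDerivAt (fun s => p3C a s * Real.cos (a * s) + p3S a s * Real.sin (a * s))
      (p3P0 s * Real.sin (a * s)) s := by
  have hC : HasDerivAt (fun s => p3C a s)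
      (-(p3P1 s / a) + p3P3 s / a ^ 3 - p3P5 s / a ^ 5 + p3P7 s / a ^ 7 - 0 / a ^ 9) s := by
    unfold p3C
    exact ((((((p3P0_deriv s).div_const a).fun_neg).fun_add ((p3P2_deriv s).div_const (a ^ 3))).fun_sub
      ((p3P4_deriv s).div_const (a ^ 5))).fun_add ((p3P6_deriv s).div_const (a ^ 7))).fun_sub
      ((p3P8_deriv s).div_const (a ^ 9))
  have hS : HasDerivAt (fun s => p3S a s)
      (p3P2 s / a ^ 2 - p3P4 s / a ^ 4 + p3P6 s / a ^ 6 - p3P8 s / a ^ 8) s := by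
    unfold p3S
    exact ((((p3P1_deriv s).div_const (a ^ 2)).fun_sub ((p3P3_deriv s).div_const (a ^ 4))).fun_add
      ((p3P5_deriv s).div_const (a ^ 6))).fun_sub ((p3P7_deriv s).div_const (a ^ 8))
  have hl : HasDerivAt (fun s : ℝ => a * s) a s := by
    simpa using (hasDerivAt_id s).const_mul a
  have hcos : HasDerivAt (fun s : ℝ => Real.cos (a * s)) (-Real.sin (a * s) * a) s := hl.cos
  have hsin : HasDerivAt (fun s : ℝ => Real.sin (a * s)) (Real.cos (a * s) * a) s := hl.sin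
  refine ((hC.fun_mul hcos).fun_add (hS.fun_mul hsin)).congr_deriv ?_
  unfold p3C p3S
  field_simp
  ring

theorem psi3 : Psi3Stmt := by
  unfold Psi3Stmt KI
  have h1 : ∀ s : ℝ, (∫ t in (0 : ℝ)..(1 - s), psi0 ![s, t, 1 - s - t] *
      Real.sin (2 * π * (![s, t, 1 - s - t] : Fin 3 → ℝ) 0)) = p3P0 s * Real.sin (2 * π * s) := by
    intro s
    simp only [Matrix.cons_val_zero]
    rw [intervalIntegral.integral_mul_const, p3_inner]
  simp only [h1]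
  have ha : (2 * π : ℝ) ≠ 0 := by positivity
  have hc : Continuous fun s : ℝ => p3P0 s * Real.sin (2 * π * s) := by
    unfold p3P0
    fun_prop
  rw [intervalIntegral.integral_eq_sub_of_hasDerivAt (fun s _ => p3G_deriv ha s)
    (hc.intervalIntegrable _ _)]
  rw [mul_one, mul_zero, Real.cos_two_pi, Real.sin_two_pi, Real.cos_zero, Real.sin_zero]
  simp only [p3C, p3S, p3P0, p3P1, p3P2, p3P3, p3P4, p3P5, p3P6, p3P7, p3P8]
  field_simp
  ring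

end Pool.TRI.A
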