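import Pool.Agent.H69.TRI.StmtsP

/-! Module SRC of block A of project TRI (helper95): the source in the disc. -/

open MeasureTheory Set Filter Topology InnerProductSpace Metric
open scoped Real ComplexConjugate ContDiff Laplacian

namespace Pool.TRI.A

private theorem src_cons (t : ℤ × ℕ × ℕ) (l : List (ℤ × ℕ × ℕ)) (w : ℂ) :
    ev (t :: l) w = (t.1 : ℂ) * w ^ t.2.1 * (conj w) ^ t.2.2 + ev l w := by simp [ev]

/-- sum of absolute values on the circle of radius `r` -/
private def srcQ (l : List (ℤ × ℕ × ℕ)) (r : ℚ) : ℚ :=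
  (l.map fun t => ((t.1.natAbs : ℕ) : ℚ) * r ^ (t.2.1 + t.2.2)).sum

private theorem src_bound (l : List (ℤ × ℕ × ℕ)) {w : ℂ} {r : ℚ} (hw : ‖w‖ ≤ (r : ℝ)) :
    ‖ev l w‖ ≤ ((srcQ l r : ℚ) : ℝ) := by
  induction l with
  | nil => simp [ev, srcQ]
  | cons t l ih =>
    have e : srcQ (t :: l) r = ((t.1.natAbs : ℕ) : ℚ) * r ^ (t.2.1 + t.2.2) + srcQ l r := by
      simp [srcQ]
    rw [src_cons, e]
    push_cast
    refine (norm_add_le _ _).trans (add_le_add ?_ ih)
    rw [norm_mul, norm_mul, norm_pow, norm_pow, Complex.norm_conj, Complex.norm_intCast, pow_add]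
    have h1 : ‖w‖ ^ t.2.1 ≤ (r : ℝ) ^ t.2.1 := pow_le_pow_left₀ (norm_nonneg _) hw _
    have h2 : ‖w‖ ^ t.2.2 ≤ (r : ℝ) ^ t.2.2 := pow_le_pow_left₀ (norm_nonneg _) hw _
    have h3 : ((t.1.natAbs : ℕ) : ℝ) = |(t.1 : ℝ)| := by
      rw [← Int.cast_natCast, Int.natCast_natAbs, Int.cast_abs]
    rw [h3, mul_assoc]
    exact mul_le_mul_of_nonneg_left (mul_le_mul h1 h2 (by positivity)
      (le_trans (by positivity) h1)) (abs_nonneg _)

private theorem src_smooth (l : List (ℤ × ℕ × ℕ)) (κ β : ℂ) :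
    ContDiff ℝ 2 fun z => (κ * ev l (aff β z)).re := by
  have hconj : ContDiff ℝ 2 fun z : ℂ => conj z := Complex.conjCLE.contDiff
  have haff : ContDiff ℝ 2 fun z : ℂ => aff β z := by
    unfold aff
    exact contDiff_id.add (contDiff_const.mul hconj)
  have haff' : ContDiff ℝ 2 fun z : ℂ => conj (aff β z) := hconj.comp haff
  have hev : ContDiff ℝ 2 fun z : ℂ => ev l (aff β z) := by
    induction l with
    | nil => simpa [ev] using (contDiff_const : ContDiff ℝ 2 fun _ : ℂ => (0 : ℂ))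
    | cons t l ih =>
      have e : (fun z : ℂ => ev (t :: l) (aff β z)) = fun z =>
          (t.1 : ℂ) * (aff β z) ^ t.2.1 * (conj (aff β z)) ^ t.2.2 + ev l (aff β z) := by
        funext z
        exact src_cons t l _
      rw [e]
      exact ((contDiff_const.mul (haff.pow _)).mul (haff'.pow _)).add ih
  exact Complex.reCLM.contDiff.comp (contDiff_const.mul hev)

private def L0 : List (ℤ × ℕ × ℕ) := [(8, 0, 0), (-6, 1, 1), (2, 3, 0)]

/-- the remaining terms of `8e8 (w + f_(w wbar))` -/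
private def src2 : List (ℤ × ℕ × ℕ) := (13028, 1, 0) :: (lwb fl).drop 2

private theorem src2_ev (w : ℂ) : ev src2 w = 800000000 * w + ev (lwb fl) w := by
  have h : lwb fl = (0, 0, 0) :: (-799986972, 1, 0) :: (lwb fl).drop 2 := by decide +kernel
  have h2 : ev (lwb fl) w = (-799986972 : ℂ) * w + ev ((lwb fl).drop 2) w := by
    conv_lhs => rw [h]
    rw [src_cons, src_cons]
    push_cast
    ring
  unfold src2
  rw [src_cons, h2]
  push_cast
  ring

theorem src (hg : Geo1Stmt) (hg2 : Geo2Stmt) (hl : LapWStmt) : SrcStmt := by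
  obtain ⟨o3, o1, oc, on, hX, hXr, hE, hF, hEr, hS2, hS3, hS1⟩ := hg
  obtain ⟨_, _, hf, _⟩ := hg2
  intro β ζ hβ hζ
  set s := ‖β‖ with hs
  have hs0 : 0 ≤ s := norm_nonneg _
  have hsA : s ≤ 1005 / 1000000 := hβ
  have hss : (0 : ℝ) < 1 + s ^ 2 := by positivity
  set κ : ℂ := (β / (1 + s ^ 2 : ℝ)) / (8 * 10 ^ 8) with hκ
  -- decomposition
  have hpp : (fun z => pp β (aff β z)) = (fun z => (((1 : ℂ) / 12) * ev L0 (aff β z)).re) +
      fun z => (κ * ev fl (aff β z)).re := by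
    funext z
    show pp β (aff β z) = (((1 : ℂ) / 12) * ev L0 (aff β z)).re + (κ * ev fl (aff β z)).re
    unfold pp
    congr 1
    · rw [hF]
      have h1 : ((1 : ℂ) / 12) * ev L0 (aff β z) = 2 / 3 - (aff β z * conj (aff β z)) / 2 +
          (aff β z) ^ 3 / 6 := by
        unfold L0
        simp only [ev, List.map_cons, List.map_nil, List.sum_cons, List.sum_nil]
        push_cast
        ring
      rw [h1, Complex.mul_conj, Complex.normSq_eq_norm_sq]
      simp only [Complex.add_re, Complex.sub_re]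
      have h2 : ((2 : ℂ) / 3).re = 2 / 3 := by
        have : ((2 : ℂ) / 3) = ((2 / 3 : ℝ) : ℂ) := by push_cast; ring
        rw [this, Complex.ofReal_re]
      have h3 : ((((‖aff β z‖ ^ 2 : ℝ) : ℂ)) / 2).re = ‖aff β z‖ ^ 2 / 2 := by
        have : ((((‖aff β z‖ ^ 2 : ℝ) : ℂ)) / 2) = ((‖aff β z‖ ^ 2 / 2 : ℝ) : ℂ) := by push_cast; ring
        rw [this, Complex.ofReal_re]
      have h4 : (aff β z ^ 3 / 6).re = (aff β z ^ 3).re / 6 := by
        rw [Complex.div_ofNat_re]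
      rw [h2, h3, h4]
    · rw [hf, hκ]
      congr 1
      ring
  rw [hpp, ContDiffAt.laplacian_add (src_smooth _ _ _).contDiffAt (src_smooth _ _ _).contDiffAt,
    hl, hl]
  set w := aff β ζ with hw
  have hwn : ‖w‖ ≤ ((5006 / 10000 : ℚ) : ℝ) := by
    have h1 : ‖w‖ ≤ ‖ζ‖ + s * ‖ζ‖ := by
      rw [hw]
      unfold aff
      refine (norm_add_le _ _).trans ?_
      rw [norm_mul, Complex.norm_conj]
    push_cast
    nlinarith [norm_nonneg ζ]
  have e1 : ev (lww L0) w = 12 * w := by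
    simp only [lww, L0, ev, List.map_cons, List.map_nil, List.sum_cons, List.sum_nil]
    push_cast
    ring
  have e2 : ev (lwb L0) w = -6 := by
    simp only [lwb, L0, ev, List.map_cons, List.map_nil, List.sum_cons, List.sum_nil]
    push_cast
    ring
  have e3 : ev (lbb L0) w = 0 := by
    simp only [lbb, L0, ev, List.map_cons, List.map_nil, List.sum_cons, List.sum_nil]
    push_cast
    ring
  rw [e1, e2, e3]
  -- the expression as the real part of a complex number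
  set A := ev (lww fl) w with hA
  set C := ev (lbb fl) w with hC
  have hB : ev (lwb fl) w = ev src2 w - 800000000 * w := by rw [src2_ev]; ring
  have hβs : β * conj β = ((s ^ 2 : ℝ) : ℂ) := by
    rw [Complex.mul_conj, Complex.normSq_eq_norm_sq]
  have hss' : ((1 + s ^ 2 : ℝ) : ℂ) ≠ 0 := by exact_mod_cast hss.ne'
  have key : (1 + s ^ 2) + 1 / 2 * (((1 : ℂ) / 12 * (4 * β * (12 * w) + 4 * ((1 + s ^ 2 : ℝ) : ℂ) * -6 +
      4 * conj β * 0)).re + (κ * (4 * β * A + 4 * ((1 + s ^ 2 : ℝ) : ℂ) * ev (lwb fl) w +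
        4 * conj β * C)).re) =
      (2 * β * (ev src2 w / 800000000) + 2 * (β ^ 2 / ((1 + s ^ 2 : ℝ) : ℂ)) * (A / 800000000) +
        2 * ((s ^ 2 : ℝ) / ((1 + s ^ 2 : ℝ) : ℂ)) * (C / 800000000)).re := by
    have h1 : ((1 + s ^ 2 : ℝ) : ℂ) + 1 / 2 * ((1 : ℂ) / 12 * (4 * β * (12 * w) +
        4 * ((1 + s ^ 2 : ℝ) : ℂ) * -6 + 4 * conj β * 0) + (κ * (4 * β * A +
          4 * ((1 + s ^ 2 : ℝ) : ℂ) * ev (lwb fl) w + 4 * conj β * C))) =
        (2 * β * (ev src2 w / 800000000) + 2 * (β ^ 2 / ((1 + s ^ 2 : ℝ) : ℂ)) * (A / 800000000) +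
        2 * ((s ^ 2 : ℝ) / ((1 + s ^ 2 : ℝ) : ℂ)) * (C / 800000000)) := by
      rw [hB, hκ, ← hβs]
      field_simp
      ring
    rw [← h1]
    simp only [Complex.add_re, Complex.ofReal_re]
    have h2 : ∀ z : ℂ, (1 / 2 * z).re = 1 / 2 * z.re := by
      intro z
      have : (1 / 2 * z) = ((1 / 2 : ℝ) : ℂ) * z := by push_cast; ring
      rw [this, Complex.re_ofReal_mul]
    rw [h2, Complex.add_re]
  rw [key]
  refine (Complex.abs_re_le_norm _).trans ?_
  have b1 := src_bound src2 hwn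
  have b2 := src_bound (lww fl) hwn
  have b3 := src_bound (lbb fl) hwn
  have c1 : srcQ src2 (5006 / 10000) ≤ 991600 := by decide +kernel
  have c2 : srcQ (lww fl) (5006 / 10000) ≤ 622200000 := by decide +kernel
  have c3 : srcQ (lbb fl) (5006 / 10000) ≤ 229300000 := by decide +kernel
  have d1 : ‖ev src2 w‖ ≤ 991600 := b1.trans (by exact_mod_cast c1)
  have d2 : ‖A‖ ≤ 622200000 := b2.trans (by exact_mod_cast c2)
  have d3 : ‖C‖ ≤ 229300000 := b3.trans (by exact_mod_cast c3)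
  have n1 : ‖((1 + s ^ 2 : ℝ) : ℂ)‖ = 1 + s ^ 2 := by
    rw [Complex.norm_real, Real.norm_of_nonneg hss.le]
  have n2 : ‖((s ^ 2 : ℝ) : ℂ)‖ = s ^ 2 := by
    rw [Complex.norm_real, Real.norm_of_nonneg (by positivity)]
  have n3 : s ^ 2 / (1 + s ^ 2) ≤ s ^ 2 := div_le_self (by positivity) (by linarith [sq_nonneg s])
  have t1 : ‖2 * β * (ev src2 w / 800000000)‖ ≤ 2 * s * (991600 / 800000000) := by
    rw [norm_mul, norm_mul, norm_div]
    simp only [Complex.norm_ofNat]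
    gcongr
  have t2 : ‖2 * (β ^ 2 / ((1 + s ^ 2 : ℝ) : ℂ)) * (A / 800000000)‖ ≤
      2 * s ^ 2 * (622200000 / 800000000) := by
    rw [norm_mul, norm_mul, norm_div, norm_div, norm_pow, n1]
    simp only [Complex.norm_ofNat]
    gcongr
  have t3 : ‖2 * (((s ^ 2 : ℝ) : ℂ) / ((1 + s ^ 2 : ℝ) : ℂ)) * (C / 800000000)‖ ≤
      2 * s ^ 2 * (229300000 / 800000000) := by
    rw [norm_mul, norm_mul, norm_div, norm_div, n1, n2]
    simp only [Complex.norm_ofNat]
    gcongr
  refine (norm_add₃_le).trans ?_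
  nlinarith

end Pool.TRI.A
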