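import Pool.Agent.H69.TRI.StmtsP

/-! Module T3 of block A of project TRI (helper95). -/

open MeasureTheory Set Filter Topology InnerProductSpace Metric
open scoped Real ComplexConjugate ContDiff Laplacian

namespace Pool.TRI.A

private theorem t3_X0 (w : ℂ) : X 0 w = 1 + w.re := by simp [X]

private theorem t3_GB (v : ℝ) : 0 ≤ GB v := by
  unfold GB
  have : 0 ≤ 549191 + (-354762) * v + 685541 * v ^ 2 := by nlinarith [sq_nonneg (v - 1 / 4)]
  positivity

private theorem t3_step {v u y η : ℝ} (hη : 0 ≤ η) (hη2 : η ≤ 21 / 10000) (hv : v = y ^ 2)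
    (hy : v ≤ 401 / 100) (hu : |u - y| ≤ η) : GB (u ^ 2) ≤ GB v + η * GD v := by
  have hy1 : 2 * |y| ≤ 1 + v := by
    rw [hv, ← sq_abs y]
    nlinarith [sq_nonneg (|y| - 1)]
  have hv0 : 0 ≤ v := by rw [hv]; positivity
  have h1 : |u ^ 2 - v| ≤ η * (10021 / 10000 + v) := by
    have e : u ^ 2 - v = (u - y) * ((u - y) + 2 * y) := by rw [hv]; ring
    rw [e, abs_mul]
    have h2 : |(u - y) + 2 * y| ≤ 10021 / 10000 + v := by
      calc |(u - y) + 2 * y| ≤ |u - y| + |2 * y| := abs_add_le _ _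
        _ = |u - y| + 2 * |y| := by rw [abs_mul, abs_two]
        _ ≤ _ := by linarith
    exact mul_le_mul hu h2 (abs_nonneg _) hη
  have h3 : u ^ 2 ≤ v + 21 / 10000 * (10021 / 10000 + v) := by
    have := (abs_le.1 h1).2
    nlinarith
  have h4 : GB (u ^ 2) - GB v = (u ^ 2 - v) * ((-354762 + 685541 * (u ^ 2 + v)) / 10 ^ 8) := by
    unfold GB
    ring
  have h5 : |(-354762 + 685541 * (u ^ 2 + v)) / 10 ^ 8| ≤ 365 / 100000 + 1372 / 100000 * v := by
    rw [abs_le]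
    have := sq_nonneg u
    constructor
    · have : 0 ≤ 685541 * (u ^ 2 + v) := by positivity
      linarith
    · linarith
  have h6 : |GB (u ^ 2) - GB v| ≤ η * GD v := by
    rw [h4, abs_mul]
    unfold GD
    calc |u ^ 2 - v| * |(-354762 + 685541 * (u ^ 2 + v)) / 10 ^ 8| ≤
          (η * (10021 / 10000 + v)) * (365 / 100000 + 1372 / 100000 * v) :=
          mul_le_mul h1 h5 (abs_nonneg _) (by positivity)
      _ = _ := by ring
  have := (abs_le.1 h6).2
  linarith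

theorem t3 (hg : Geo1Stmt) (hn : NBStmt) : T3Stmt := by
  obtain ⟨o3, o1, oc, on, hX, hXr, hE, hF, hEr, hS2, hS3, hS1⟩ := hg
  intro β ζ hβ h0 h1 h2 hX0
  set s := ‖β‖ with hs
  set r := ‖ζ‖ with hr
  have hs0 : 0 ≤ s := norm_nonneg _
  have hr0 : 0 ≤ r := norm_nonneg _
  have hsA : s ≤ 1005 / 1000000 := hβ
  -- size of ζ
  have hr2 : r ≤ 20021 / 10000 := by
    have h3 := hS2 _ h0
    have h4 : r - s * r ≤ ‖aff β ζ‖ := by
      unfold aff
      have h5 : ‖β * conj ζ‖ = s * r := by rw [norm_mul, Complex.norm_conj]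
      have h6 : ‖ζ‖ ≤ ‖ζ + β * conj ζ‖ + ‖β * conj ζ‖ := by
        calc ‖ζ‖ = ‖(ζ + β * conj ζ) - β * conj ζ‖ := by ring_nf
          _ ≤ _ := norm_sub_le _ _
      rw [h5] at h6
      linarith
    nlinarith
  set η := s * r with hη
  have hη0 : 0 ≤ η := mul_nonneg hs0 hr0
  have hη2 : η ≤ 21 / 10000 := by nlinarith
  have hv : ζ.im ^ 2 ≤ 401 / 100 := by
    have h3 : |ζ.im| ≤ r := Complex.abs_im_le_norm ζ
    have h4 : ζ.im ^ 2 ≤ r ^ 2 := by
      rw [← sq_abs]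
      exact pow_le_pow_left₀ (abs_nonneg _) h3 2
    nlinarith
  have him : ∀ b : ℂ, ‖b‖ = s → |(aff b ζ).im - ζ.im| ≤ η := by
    intro b hb
    have h3 : (aff b ζ).im - ζ.im = (b * conj ζ).im := by
      unfold aff
      rw [Complex.add_im]
      ring
    rw [h3]
    refine (Complex.abs_im_le_norm _).trans ?_
    rw [norm_mul, Complex.norm_conj, hb]
  have hb1 : ‖om * β‖ = s := by rw [norm_mul, on, one_mul]
  have hb2 : ‖om ^ 2 * β‖ = s := by rw [norm_mul, norm_pow, on, one_pow, one_mul]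
  have g1 := t3_step hη0 hη2 rfl hv (him _ hb1)
  have g2 := t3_step hη0 hη2 rfl hv (him _ hb2)
  have n0 := hn _ h0
  have n1 := hn _ h1
  have n2 := hn _ h2
  rw [hX0, zero_mul] at n0
  have x1 : 0 ≤ X 0 (aff (om * β) ζ) := h1 0
  have x2 : 0 ≤ X 0 (aff (om ^ 2 * β) ζ) := h2 0
  have hsum : X 0 (aff (om * β) ζ) + X 0 (aff (om ^ 2 * β) ζ) = 3 * (1 + ζ.re) := by
    have h3 : X 0 (aff β ζ) + X 0 (aff (om * β) ζ) + X 0 (aff (om ^ 2 * β) ζ) = 3 * (1 + ζ.re) := by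
      rw [t3_X0, t3_X0, t3_X0]
      have h4 : aff β ζ + aff (om * β) ζ + aff (om ^ 2 * β) ζ = 3 * ζ := by
        unfold aff
        linear_combination (β * conj ζ) * o1
      have h5 := congrArg Complex.re h4
      rw [Complex.add_re, Complex.add_re, Complex.mul_re] at h5
      simp only [Complex.re_ofNat, Complex.im_ofNat, zero_mul, sub_zero] at h5
      linarith
    rw [hX0, zero_add] at h3
    exact h3
  have hre : 1 + ζ.re ≤ η := by
    rw [t3_X0] at hX0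
    unfold aff at hX0
    rw [Complex.add_re] at hX0
    have h3 : |(β * conj ζ).re| ≤ η := by
      refine (Complex.abs_re_le_norm _).trans ?_
      rw [norm_mul, Complex.norm_conj]
    have := (abs_le.1 h3).1
    linarith
  have hre0 : 0 ≤ 1 + ζ.re := by linarith
  have hG : 0 ≤ GB (ζ.im ^ 2) + η * GD (ζ.im ^ 2) := by
    have h3 := t3_GB (ζ.im ^ 2)
    have h4 : 0 ≤ GD (ζ.im ^ 2) := by unfold GD; positivity
    positivity
  have m1 : Bm (aff (om * β) ζ) ≤ X 0 (aff (om * β) ζ) * (GB (ζ.im ^ 2) + η * GD (ζ.im ^ 2)) :=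
    n1.trans (mul_le_mul_of_nonneg_left g1 x1)
  have m2 : Bm (aff (om ^ 2 * β) ζ) ≤ X 0 (aff (om ^ 2 * β) ζ) * (GB (ζ.im ^ 2) + η * GD (ζ.im ^ 2)) :=
    n2.trans (mul_le_mul_of_nonneg_left g2 x2)
  calc (Bm (aff β ζ) + Bm (aff (om * β) ζ) + Bm (aff (om ^ 2 * β) ζ)) / 3 ≤
        (X 0 (aff (om * β) ζ) + X 0 (aff (om ^ 2 * β) ζ)) / 3 *
          (GB (ζ.im ^ 2) + η * GD (ζ.im ^ 2)) := by linarith
    _ = (1 + ζ.re) * (GB (ζ.im ^ 2) + η * GD (ζ.im ^ 2)) := by rw [hsum]; ring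
    _ ≤ η * (GB (ζ.im ^ 2) + η * GD (ζ.im ^ 2)) := mul_le_mul_of_nonneg_right hre hG

end Pool.TRI.A
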